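import Pool.Agent.Helper4.T7.StD

/-!
# Project T7, module CeA: the finite certificates CEG, CEU, CEO
-/

set_option autoImplicit false
set_option maxRecDepth 1000000

namespace Pool.Agent.Helper56.T7

open Pool.Agent.Helper4.T7
open Pool.Agent.Helper14.W5 (cS M7)

/-- Certificate CEG. -/
theorem hCeG : TCeG := by
  unfold TCeG
  decide +kernel

/-- Certificate CEO. -/
theorem hCeO : TCeO := by
  unfold TCeO
  decide +kernel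

private theorem u0 : ∀ f : Fin 5, ∀ w : Fin 4, ∀ t ∈ M7, t.1 + 4 * t.2.1 + t.2.2 ≤ 2 →
    (5 : ℤ) ∣ cS (BUQ 0 f) w t.1 t.2.1 t.2.2 -
      (if (0 : Fin 5) = f ∧ w = 0 ∧ t = (1, 0, 1) then 1 else 0) := by decide +kernel

private theorem u1 : ∀ f : Fin 5, ∀ w : Fin 4, ∀ t ∈ M7, t.1 + 4 * t.2.1 + t.2.2 ≤ 2 →
    (5 : ℤ) ∣ cS (BUQ 1 f) w t.1 t.2.1 t.2.2 -
      (if (1 : Fin 5) = f ∧ w = 0 ∧ t = (1, 0, 1) then 1 else 0) := by decide +kernel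

private theorem u2 : ∀ f : Fin 5, ∀ w : Fin 4, ∀ t ∈ M7, t.1 + 4 * t.2.1 + t.2.2 ≤ 2 →
    (5 : ℤ) ∣ cS (BUQ 2 f) w t.1 t.2.1 t.2.2 -
      (if (2 : Fin 5) = f ∧ w = 0 ∧ t = (1, 0, 1) then 1 else 0) := by decide +kernel

private theorem u3 : ∀ f : Fin 5, ∀ w : Fin 4, ∀ t ∈ M7, t.1 + 4 * t.2.1 + t.2.2 ≤ 2 →
    (5 : ℤ) ∣ cS (BUQ 3 f) w t.1 t.2.1 t.2.2 -
      (if (3 : Fin 5) = f ∧ w = 0 ∧ t = (1, 0, 1) then 1 else 0) := by decide +kernel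

private theorem u4 : ∀ f : Fin 5, ∀ w : Fin 4, ∀ t ∈ M7, t.1 + 4 * t.2.1 + t.2.2 ≤ 2 →
    (5 : ℤ) ∣ cS (BUQ 4 f) w t.1 t.2.1 t.2.2 -
      (if (4 : Fin 5) = f ∧ w = 0 ∧ t = (1, 0, 1) then 1 else 0) := by decide +kernel

/-- Certificate CEU. -/
theorem hCeU : TCeU := fun i =>
  match i with
  | 0 => u0
  | 1 => u1
  | 2 => u2
  | 3 => u3
  | 4 => u4

end Pool.Agent.Helper56.T7
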